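import Pool.Agent.Lib.MP_cb27ba_nt.RU.All
import Pool.Agent.Lib.MP_cb27ba_nt.CO.ME3

/-!
# MP_cb27ba_nt: almost all characters, ARBITRARY sets

For every prime `p` and ALL sets `A`, `B` in `ZMod p` the matrix `χ (a - b)`, `a ∈ A`, `b ∈ B`, has a
small operator norm for all characters `χ` modulo `p` but a few: about `p / (|A| |B|)` of them, up to
factors `p ^ ε`, or powers of `log p`. The weights may depend on the character.

`q1` is the consequence in the words of Q1, `every` a bound for single characters of large order,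
`subgroup` a consequence for differences in a subgroup.
-/

set_option autoImplicit false

namespace Pool.Agent.Results.MP_cb27ba_nt.AlmostAllCharacters

open Finset

/-- There is an absolute constant `C` such that for every prime `p`, all nonempty sets `A`, `B` in
`ZMod p`, every `k ≥ 1` and every `0 < Δ ≤ 1` with `Δ⁴ min (|A|, |B|) ≥ 4` there is a set `E` of at most
`C ^ k (1 + log p) ^ 4 Δ ^ (-8k-2) p ^ (2 ^ (-k)) max (1, p / (|A| |B|))` characters modulo `p` such that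
for every character `χ` modulo `p` which is not in `E` and ALL complex weights `α`, `β` the sum of
`α a * β b * χ (a - b)` over `a ∈ A`, `b ∈ B` is at most
`Δ (|A| |B|) ^ (1/2) (∑ |α|²) ^ (1/2) (∑ |β|²) ^ (1/2)` in absolute value. -/
theorem result : ∃ C : ℝ, 1 ≤ C ∧ ∀ (p : ℕ) [Fact p.Prime] (A B : Finset (ZMod p)),
    A.Nonempty → B.Nonempty → ∀ (k : ℕ) (Δ : ℝ), 1 ≤ k → 0 < Δ → Δ ≤ 1 →
      4 ≤ Δ ^ 4 * min (#A : ℝ) #B →
      ∃ E : Finset (DirichletCharacter ℂ p),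
        (#E : ℝ) ≤ C ^ k * (1 + Real.log p) ^ 4 * (Δ ^ (8 * k + 2))⁻¹ *
          (p : ℝ) ^ ((1 / 2 : ℝ) ^ k) * max 1 ((p : ℝ) / (#A * #B)) ∧
        ∀ χ ∉ E, ∀ α β : ZMod p → ℂ,
          ‖∑ a ∈ A, ∑ b ∈ B, α a * β b * χ (a - b)‖ ≤
            Δ * Real.sqrt ((#A : ℝ) * #B) *
              (Real.sqrt (∑ a ∈ A, ‖α a‖ ^ 2) * Real.sqrt (∑ b ∈ B, ‖β b‖ ^ 2)) := by
  obtain ⟨C, hC1, hC⟩ := MPcb27.RU2.theoremOP4
  exact ⟨C, hC1, fun p _ A B hA hB k Δ hk h0 h1 h4 => hC p A B hA hB k Δ hk h0 h1 h4⟩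

/-- For all `δ, ε > 0` there are `τ > 0` and `P` such that for every prime `p ≥ P` and EVERY set `A` in
`ZMod p` with more than `p ^ δ` elements all characters `χ` modulo `p` but at most
`p ^ ε max (1, p / |A|²)` satisfy the inequality of Q1 for `A` and for all subsets `X` of `A` with at least
`|A| ^ (1-τ)` elements. -/
theorem q1 (δ ε : ℝ) (hδ : 0 < δ) (hε : 0 < ε) : ∃ τ : ℝ, 0 < τ ∧ ∃ P : ℕ,
    ∀ (p : ℕ) [Fact p.Prime], P ≤ p → ∀ A : Finset (ZMod p), (p : ℝ) ^ δ < #A →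
      ∃ E : Finset (DirichletCharacter ℂ p),
        (#E : ℝ) ≤ (p : ℝ) ^ ε * max 1 ((p : ℝ) / (#A : ℝ) ^ 2) ∧
        ∀ χ ∉ E, ∀ X ⊆ A, (#A : ℝ) ^ (1 - τ) ≤ #X →
          ‖∑ a ∈ X, ∑ b ∈ X, χ (a - b)‖ < (#X : ℝ) ^ (2 - τ) :=
  MPcb27.RU2.q1form MPcb27.RU2.theoremOP4 δ ε hδ hε

/-- There are `C`, `P` such that for every prime `p ≥ P` and all sets `A`, `B` in `ZMod p` with at least 64
elements, and `L = (log p) ^ C max (1, p / (|A| |B|))`, there is a `d < L` such that EVERY character `χ`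
with `χ ^ d ≠ 1` (so every character of order at least `L`) has a matrix `χ (a - b)` of norm at most
`(1 - L ^ (-2)) (|A| |B|) ^ (1/2)`. -/
theorem every : ∃ C : ℝ, 1 ≤ C ∧ ∃ P : ℕ, ∀ (p : ℕ) [Fact p.Prime], P ≤ p →
    ∀ A B : Finset (ZMod p), 64 ≤ #A → 64 ≤ #B →
      ∀ L : ℝ, L = Real.log p ^ C * max 1 ((p : ℝ) / (#A * #B)) →
        ∃ d : ℕ, 1 ≤ d ∧ (d : ℝ) < L ∧ ∀ χ : DirichletCharacter ℂ p, χ ^ d ≠ 1 →
          ∀ α β : ZMod p → ℂ,
            ‖∑ a ∈ A, ∑ b ∈ B, α a * β b * χ (a - b)‖ ≤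
              (1 - (L ^ 2)⁻¹) * Real.sqrt ((#A : ℝ) * #B) *
                (Real.sqrt (∑ a ∈ A, ‖α a‖ ^ 2) * Real.sqrt (∑ b ∈ B, ‖β b‖ ^ 2)) :=
  MPcb27.CO.specEV MPcb27.RU2.theoremOP4

open scoped Classical in
/-- For every `ε > 0` there are `τ > 0` and `P` such that for every prime `p ≥ P`, every set `A` in
`ZMod p` and every subgroup `H` of the multiplicative group with index at least `p ^ ε`: if at least
`p ^ (-τ) |A|²` of the pairs of elements of `A` have their difference in `H`, then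
`|A|² ≤ p ^ ε |H|`. -/
theorem subgroup (ε : ℝ) (hε : 0 < ε) : ∃ τ : ℝ, 0 < τ ∧ ∃ P : ℕ, ∀ (p : ℕ) [Fact p.Prime],
    P ≤ p → ∀ (A : Finset (ZMod p)) (H : Subgroup (ZMod p)ˣ), (p : ℝ) ^ ε ≤ (H.index : ℝ) →
      (#A : ℝ) ^ 2 ≤ (p : ℝ) ^ τ *
        #((A ×ˢ A).filter fun x => ∃ h ∈ H, (h : ZMod p) = x.1 - x.2) →
      (#A : ℝ) ^ 2 ≤ (p : ℝ) ^ ε * (Nat.card H : ℝ) :=
  MPcb27.CO.specAC1 MPcb27.RU2.theoremOP4 ε hε

end Pool.Agent.Results.MP_cb27ba_nt.AlmostAllCharacters
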