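import Pool.Agent.Lib.MP_cb27ba_nt.TU.All
import Pool.Agent.Lib.MP_cb27ba_nt.CO.ME3

/-!
# MP_cb27ba_nt: sets covered by sets of bounded doubling above the Burgess barrier

A power saving for the norm of the matrix `χ (a - b)` on sets which are covered by sets of bounded
doubling with more than `p ^ (1/4 + δ)` elements; the structure may change from piece to piece. Consequences in
the words of Q1: the theorems `q1`, `translates` and `remainder` at the end of the file.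
-/

set_option autoImplicit false

namespace Pool.Agent.Results.MP_cb27ba_nt.DoublingUnions

open Finset
open scoped Pointwise

/-- Let `K` be real and `δ > 0`.  There are `τ > 0` and `P` such that for every prime `p ≥ P`, all
finite families `F`, `G` of sets `X` in `ZMod p` with `|X| > p ^ (1/4 + δ)` and `|X + X| ≤ K |X|`,
all sets `A` in the union of `F` and `B` in the union of `G`, all complex weights `α`, `β` and every
nonprincipal character `χ` modulo `p` the sum of `α a * β b * χ (a - b)` over `a ∈ A`, `b ∈ B` is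
at most `p ^ (-τ) (∑_{X ∈ F} |X|) ^ (1/2) (∑_{Y ∈ G} |Y|) ^ (1/2) (∑ |α|²) ^ (1/2) (∑ |β|²) ^ (1/2)`
in absolute value. -/
theorem result (K δ : ℝ) (hδ : 0 < δ) : ∃ τ : ℝ, 0 < τ ∧ ∃ P : ℕ, ∀ p : ℕ, p.Prime → P ≤ p →
    ∀ F G : Finset (Finset (ZMod p)),
      (∀ X ∈ F ∪ G, (p : ℝ) ^ (1 / 4 + δ) < (#X : ℝ) ∧ (#(X + X) : ℝ) ≤ K * #X) →
      ∀ A B : Finset (ZMod p), A ⊆ F.biUnion id → B ⊆ G.biUnion id →
        ∀ (α β : ZMod p → ℂ) (χ : DirichletCharacter ℂ p), χ ≠ 1 →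
          ‖∑ a ∈ A, ∑ b ∈ B, α a * β b * χ (a - b)‖ ≤
            (p : ℝ) ^ (-τ) * Real.sqrt ((∑ X ∈ F, (#X : ℝ)) * ∑ Y ∈ G, (#Y : ℝ)) *
              (Real.sqrt (∑ a ∈ A, ‖α a‖ ^ 2) * Real.sqrt (∑ b ∈ B, ‖β b‖ ^ 2)) := by
  obtain ⟨τ, hτ, P, hP⟩ := MPcb27.TU.theoremUK K δ hδ
  refine ⟨τ, hτ, P, ?_⟩
  intro p hp hPp F G hFG A B hA hB α β χ hχ
  have : Fact p.Prime := ⟨hp⟩
  exact hP p hPp F G hFG A B hA hB χ hχ α β

/-- Q1's inequality for every set `A` covered by such sets `X` of total size at most `p ^ τ |A|`. -/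
theorem q1 (K δ : ℝ) (hδ : 0 < δ) : ∃ τ : ℝ, 0 < τ ∧ ∃ P : ℕ, ∀ (p : ℕ) [Fact p.Prime], P ≤ p →
    ∀ (A : Finset (ZMod p)) (F : Finset (Finset (ZMod p))), A.Nonempty →
      (∀ X ∈ F, (p : ℝ) ^ (1 / 4 + δ) < (#X : ℝ) ∧ (#(X + X) : ℝ) ≤ K * #X) →
      A ⊆ F.biUnion id → ∑ X ∈ F, (#X : ℝ) ≤ (p : ℝ) ^ τ * #A →
      ∀ χ : DirichletCharacter ℂ p, χ ≠ 1 →
        ‖∑ a ∈ A, ∑ b ∈ A, χ (a - b)‖ < (#A : ℝ) ^ (2 - τ) :=
  MPcb27.CO.specDU1 MPcb27.TU.theoremUK K δ hδ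

/-- Q1's inequality for every set `A` with `|A + X| ≤ p ^ τ |A|` for one such set `X`, and for all its
subsets `B` with at least `p ^ (-τ) |A|` elements. -/
theorem translates (K δ : ℝ) (hδ : 0 < δ) : ∃ τ : ℝ, 0 < τ ∧ ∃ P : ℕ, ∀ (p : ℕ) [Fact p.Prime],
    P ≤ p → ∀ A X : Finset (ZMod p), A.Nonempty → (p : ℝ) ^ (1 / 4 + δ) < (#X : ℝ) →
      (#(X + X) : ℝ) ≤ K * #X → (#(A + X) : ℝ) ≤ (p : ℝ) ^ τ * #A →
      ∀ B ⊆ A, (#A : ℝ) ≤ (p : ℝ) ^ τ * #B →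
      ∀ χ : DirichletCharacter ℂ p, χ ≠ 1 →
        ‖∑ a ∈ B, ∑ b ∈ B, χ (a - b)‖ < (#B : ℝ) ^ (2 - τ) :=
  MPcb27.CO.specDU2 MPcb27.TU.theoremUK K δ hδ

/-- Every counterexample `A` to Q1 with a small exponent `τ` has a subset `A'` of at least
`p ^ (-σ) |A|` elements which contains no such set `X`. -/
theorem remainder (K δ : ℝ) (hδ : 0 < δ) (σ : ℝ) (hσ : 0 < σ) : ∃ τ : ℝ, 0 < τ ∧ ∃ P : ℕ,
    ∀ (p : ℕ) [Fact p.Prime], P ≤ p → ∀ A : Finset (ZMod p), A.Nonempty →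
      (¬ ∀ χ : DirichletCharacter ℂ p, χ ≠ 1 →
        ‖∑ a ∈ A, ∑ b ∈ A, χ (a - b)‖ < (#A : ℝ) ^ (2 - τ)) →
      ∃ A' ⊆ A, (#A : ℝ) ≤ (p : ℝ) ^ σ * #A' ∧
        ∀ X ⊆ A', (p : ℝ) ^ (1 / 4 + δ) < (#X : ℝ) → K * #X < (#(X + X) : ℝ) :=
  MPcb27.CO.specDU3 MPcb27.TU.theoremUK K δ hδ σ hσ

end Pool.Agent.Results.MP_cb27ba_nt.DoublingUnions
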