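import Pool.Agent.Lib.MP_cb27ba_nt.PH.EN2
import Pool.Agent.Lib.MP_cb27ba_nt.CO.ME3

/-!
# MP_cb27ba_nt: pieces with a bounded energy, against an arbitrary set

A power saving for the matrix `χ (a - b)`, `a ∈ A`, `b ∈ B`, when `B` is ARBITRARY and `A` is
covered by images `φ (C)`, `φ ∈ Φ`, of a set `C` under a set `Φ` of Möbius maps, under a bound for
the sum of `|φ⁻¹ B ∩ ψ⁻¹ B|²`, `φ, ψ ∈ Φ`. The set `C` is ARBITRARY, and the bound is weaker by the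
factor `|C|` when `C` is an arithmetic progression. Consequences in the words of Q1: the theorems `sumset`,
`progression`, `translates` at the end of the file.
-/

set_option autoImplicit false

namespace Pool.Agent.Results.MP_cb27ba_nt.EnergyCriterion

open Finset

/-- For every `δ > 0` there are `τ > 0` and `P` such that for every prime `p ≥ P`, every set `B` in
`ZMod p` with at least `p ^ δ` elements, every finite family `F` of triples `(Φ, C, m)`, where `Φ` is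
a finite set of invertible 2 x 2 matrices (the Möbius maps
`z ↦ (φ₀₀ z + φ₀₁) / (φ₁₀ z + φ₁₁)`), `C` a set in `ZMod p` with at least `p ^ δ` elements and
`m ≥ 1`, such that the sum over `φ`, `ψ` in `Φ` of the squares of
`#{z : φ z ∈ B, ψ z ∈ B}` is at most `K p ^ (-1-δ) |Φ|² |B|⁴`, where `K = 1`, or `K = |C|` if `C` is
an arithmetic progression with at most `p ^ (1/2-δ)` elements, every set `A` such that each `a ∈ A` is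
`φ c` for at least `m` pairs `(φ, c) ∈ Φ × C` for some `(Φ, C, m) ∈ F`, all complex weights `α`, `β`
and every nonprincipal character `χ` modulo `p` the sum of `α a * β b * χ (a - b)` over `a ∈ A`,
`b ∈ B` is at most
`p ^ (-τ) (|B| ∑_F |Φ| |C| / m) ^ (1/2) (∑ |α|²) ^ (1/2) (∑ |β|²) ^ (1/2)` in absolute value. -/
theorem result (δ : ℝ) (hδ : 0 < δ) : ∃ τ : ℝ, 0 < τ ∧ ∃ P : ℕ, ∀ (p : ℕ) [Fact p.Prime], P ≤ p →
    ∀ (B : Finset (ZMod p))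
      (F : Finset (Finset (Matrix (Fin 2) (Fin 2) (ZMod p)) × Finset (ZMod p) × ℕ)),
      (p : ℝ) ^ δ ≤ (#B : ℝ) →
      (∀ (Φ : Finset (Matrix (Fin 2) (Fin 2) (ZMod p))) (C : Finset (ZMod p)) (m : ℕ),
        (Φ, C, m) ∈ F →
        (∀ φ ∈ Φ, φ.det ≠ 0) ∧ (p : ℝ) ^ δ ≤ (#C : ℝ) ∧ 1 ≤ m ∧
        ∃ K : ℕ, (K = 1 ∨ (K = #C ∧ (#C : ℝ) ≤ (p : ℝ) ^ (1 / 2 - δ) ∧
            ∃ (c g : ZMod p) (n : ℕ), C = (range n).image fun k : ℕ => c + (k : ZMod p) * g)) ∧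
          (p : ℝ) ^ (1 + δ) * ∑ φ ∈ Φ, ∑ ψ ∈ Φ, (#(univ.filter fun z : ZMod p =>
              (φ 1 0 * z + φ 1 1 ≠ 0 ∧ (φ 0 0 * z + φ 0 1) / (φ 1 0 * z + φ 1 1) ∈ B) ∧
              (ψ 1 0 * z + ψ 1 1 ≠ 0 ∧ (ψ 0 0 * z + ψ 0 1) / (ψ 1 0 * z + ψ 1 1) ∈ B)) : ℝ) ^ 2 ≤
            K * ((#Φ : ℝ) ^ 2 * (#B : ℝ) ^ 4)) →
      ∀ A : Finset (ZMod p),
        (∀ a ∈ A, ∃ (Φ : Finset (Matrix (Fin 2) (Fin 2) (ZMod p))) (C : Finset (ZMod p)) (m : ℕ),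
          (Φ, C, m) ∈ F ∧
            m ≤ #((Φ ×ˢ C).filter fun x => x.1 1 0 * x.2 + x.1 1 1 ≠ 0 ∧
              (x.1 0 0 * x.2 + x.1 0 1) / (x.1 1 0 * x.2 + x.1 1 1) = a)) →
        ∀ (α β : ZMod p → ℂ) (χ : DirichletCharacter ℂ p), χ ≠ 1 →
          ‖∑ a ∈ A, ∑ b ∈ B, α a * β b * χ (a - b)‖ ≤
            (p : ℝ) ^ (-τ) * Real.sqrt ((∑ q ∈ F, (#q.1 : ℝ) * #q.2.1 / q.2.2) * #B) *
              (Real.sqrt (∑ a ∈ A, ‖α a‖ ^ 2) * Real.sqrt (∑ b ∈ B, ‖β b‖ ^ 2)) := by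
  obtain ⟨τ, hτ, P, hP⟩ := MPcb27.PH.theoremEN2 δ hδ
  refine ⟨τ, hτ, P, ?_⟩
  intro p _ hPp B F hB hF A hA α β χ hχ
  refine hP p hPp B F hB ?_ A ?_ χ hχ α β
  · rintro ⟨Φ, C, m⟩ hq
    obtain ⟨h1, h2, h3, K, hK, h4⟩ := hF Φ C m hq
    refine ⟨h1, h2, h3, K, hK, ?_⟩
    rw [MPcb27.PG.NAM]
    push_cast
    refine le_trans (le_of_eq ?_) h4
    congr 1
    refine sum_congr rfl fun φ _ => sum_congr rfl fun ψ _ => ?_
    simp only [MPcb27.MB.den, MPcb27.MB.mob, ← div_eq_mul_inv, and_assoc]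
  · intro a ha
    obtain ⟨Φ, C, m, h1, h2⟩ := hA a ha
    refine ⟨(Φ, C, m), h1, ?_⟩
    simp only [MPcb27.MB.den, MPcb27.MB.mob, ← div_eq_mul_inv]
    exact h2

open scoped Pointwise

/-- Q1's inequality for every set `A` contained in a sumset `C + D`, `C` any set of at least `p ^ δ`
elements, `|C| |D| ≤ p ^ τ |A|`, with additive energy at most `p ^ (-1-δ) |D| |A|⁴`. -/
theorem sumset (δ : ℝ) (hδ : 0 < δ) : ∃ τ : ℝ, 0 < τ ∧ ∃ P : ℕ, ∀ (p : ℕ) [Fact p.Prime], P ≤ p →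
    ∀ A C D : Finset (ZMod p), A.Nonempty → (p : ℝ) ^ δ ≤ (#C : ℝ) → A ⊆ C + D →
      (#C : ℝ) * #D ≤ (p : ℝ) ^ τ * #A → (p : ℝ) ^ (1 + δ) * A.addEnergy A ≤ #D * (#A : ℝ) ^ 4 →
      ∀ χ : DirichletCharacter ℂ p, χ ≠ 1 →
        ‖∑ a ∈ A, ∑ b ∈ A, χ (a - b)‖ < (#A : ℝ) ^ (2 - τ) :=
  MPcb27.CO.specEC1 δ hδ

/-- Q1's inequality for every set `A` contained in `L + D`, `L` an arithmetic progression with
`n ≥ p ^ δ` elements, `n |D| ≤ p ^ τ |A|`, with additive energy at most `p ^ (-1-δ) |A|⁵`. -/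
theorem progression (δ : ℝ) (hδ : 0 < δ) : ∃ τ : ℝ, 0 < τ ∧ ∃ P : ℕ, ∀ (p : ℕ) [Fact p.Prime],
    P ≤ p → ∀ (A L D : Finset (ZMod p)) (c g : ZMod p) (n : ℕ), A.Nonempty → g ≠ 0 → n ≤ p →
      (p : ℝ) ^ δ ≤ (n : ℝ) → L = (range n).image (fun k : ℕ => c + (k : ZMod p) * g) → A ⊆ L + D →
      (n : ℝ) * #D ≤ (p : ℝ) ^ τ * #A → (p : ℝ) ^ (1 + δ) * A.addEnergy A ≤ (#A : ℝ) ^ 5 →
      ∀ χ : DirichletCharacter ℂ p, χ ≠ 1 →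
        ‖∑ a ∈ A, ∑ b ∈ A, χ (a - b)‖ < (#A : ℝ) ^ (2 - τ) :=
  MPcb27.CO.specEC2 δ hδ

/-- Q1's inequality for every set `A` with `|A + L| ≤ p ^ τ |A|`, `L` an arithmetic progression with
`n ≥ p ^ δ` elements, with additive energy at most `p ^ (-1-δ) n |A|⁵`. -/
theorem translates (δ : ℝ) (hδ : 0 < δ) : ∃ τ : ℝ, 0 < τ ∧ ∃ P : ℕ, ∀ (p : ℕ) [Fact p.Prime],
    P ≤ p → ∀ (A L : Finset (ZMod p)) (c g : ZMod p) (n : ℕ), g ≠ 0 → n ≤ p →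
      (p : ℝ) ^ δ ≤ (n : ℝ) → L = (range n).image (fun k : ℕ => c + (k : ZMod p) * g) →
      A.Nonempty → (#(A + L) : ℝ) ≤ (p : ℝ) ^ τ * #A →
      (p : ℝ) ^ (1 + δ) * A.addEnergy A ≤ n * (#A : ℝ) ^ 5 →
      ∀ χ : DirichletCharacter ℂ p, χ ≠ 1 →
        ‖∑ a ∈ A, ∑ b ∈ A, χ (a - b)‖ < (#A : ℝ) ^ (2 - τ) :=
  MPcb27.CO.specEC3 δ hδ

end Pool.Agent.Results.MP_cb27ba_nt.EnergyCriterion
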