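import Pool.Agent.Lib.MP_cb27ba_nt.PH.All
import Pool.Agent.Lib.MP_cb27ba_nt.CO.ME3

/-!
# MP_cb27ba_nt: sets covered by Möbius images of an arbitrary set

A power saving for the matrix `χ (a - b)`, `a ∈ A`, `b ∈ B`, when `B` is an ARBITRARY set of at
least `p ^ (1/2 - τ)` elements and `A` is covered by the sets `φ (C)`, `φ ∈ Φ`, where `C` is an
ARBITRARY set of at least `p ^ δ` elements and `Φ` an ARBITRARY set of at least `p ^ δ` Möbius maps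
of the projective line over `ZMod p`. The only condition: if more than `p ^ (-δ) |Φ|` elements of `Φ`
are in one coset of an abelian group `T` (the Möbius maps commuting with a matrix `s`: translations,
dilations, ...), then `A` has not nearly maximal `T`-energy. No condition if `Φ` is not concentrated
on a coset of an abelian group. In particular for all sets `A` covered by sumsets `C + D` (if the
additive energy of `A` is at most `p ^ (-2δ) |A|³`), by product sets `C * D` (if the multiplicative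
energy is at most `p ^ (-2δ) |A|³`), by sets `C * D + E` or `1 / (C + D) + E` (always), where `C`,
`D`, `E` are arbitrary sets of at least `p ^ δ` elements: these consequences, in the words of Q1, are the
theorems `sumset`, `product` and `affine` at the end of the file.
-/

set_option autoImplicit false

namespace Pool.Agent.Results.MP_cb27ba_nt.MoebiusEnergy

open Finset

/-- `φ (c) = a` for the Möbius map `φ`, where `c` and `a` are elements of `ZMod p` (not `∞`) -/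
def Maps {p : ℕ} [Fact p.Prime] (φ : Matrix (Fin 2) (Fin 2) (ZMod p)) (c a : ZMod p) : Prop :=
  φ 1 0 * c + φ 1 1 ≠ 0 ∧ (φ 0 0 * c + φ 0 1) / (φ 1 0 * c + φ 1 1) = a

open scoped Classical in
/-- the number of pairs `(φ, c)` in `Φ × C` with `φ (c) = a` -/
noncomputable def reps {p : ℕ} [Fact p.Prime] (Φ : Finset (Matrix (Fin 2) (Fin 2) (ZMod p)))
    (C : Finset (ZMod p)) (a : ZMod p) : ℕ :=
  #((Φ ×ˢ C).filter fun x => Maps x.1 x.2 a)

open scoped Classical in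
/-- the number of quadruples `(a, b, c, d)` of elements of `X` such that some invertible matrix `t`
which commutes with `s` maps `a` to `b` and `c` to `d` -/
noncomputable def energy {p : ℕ} [Fact p.Prime] (s : Matrix (Fin 2) (Fin 2) (ZMod p))
    (X : Finset (ZMod p)) : ℕ :=
  #(((X ×ˢ X) ×ˢ (X ×ˢ X)).filter fun q => ∃ t : Matrix (Fin 2) (Fin 2) (ZMod p),
    t.det ≠ 0 ∧ t * s = s * t ∧ Maps t q.1.1 q.1.2 ∧ Maps t q.2.1 q.2.2)

lemma maps_iff {p : ℕ} [Fact p.Prime] (φ : Matrix (Fin 2) (Fin 2) (ZMod p)) (c a : ZMod p) :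
    Maps φ c a ↔ MPcb27.MB.den φ c ≠ 0 ∧ MPcb27.MB.mob φ c = a := by
  rw [Maps, div_eq_mul_inv]
  exact Iff.rfl

lemma reps_eq {p : ℕ} [Fact p.Prime] (Φ : Finset (Matrix (Fin 2) (Fin 2) (ZMod p)))
    (C : Finset (ZMod p)) (a : ZMod p) : reps Φ C a = MPcb27.PG.FINPG.rp Φ C a := by
  rw [reps, MPcb27.PG.FINPG.rp]
  congr 1
  ext x
  simp only [mem_filter, maps_iff]

lemma energy_eq {p : ℕ} [Fact p.Prime] (s : Matrix (Fin 2) (Fin 2) (ZMod p))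
    (X : Finset (ZMod p)) : energy s X = MPcb27.PH.ET s X := by
  rw [energy, MPcb27.PH.ET]
  congr 1
  ext x
  simp only [mem_filter]
  simp only [maps_iff, MPcb27.PH.mp]

/-- For every `δ > 0` there are `τ > 0` and `P` such that for every prime `p ≥ P`, all sets `A`, `B`
in `ZMod p`, `B` with at least `p ^ (1/2 - τ)` elements, every finite family `F` of triples
`(Φ, C, m)`, where `Φ` is a set of at least `p ^ δ` invertible 2 x 2 matrices over `ZMod p`, no two of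
them proportional, `C` is a set in `ZMod p` with at least `p ^ δ` elements and `m ≥ 1`, with the
following properties: (i) every `a ∈ A` is in one of the sets `A_q = {a ∈ A : m ≤ reps Φ C a}`,
`q = (Φ, C, m) ∈ F`; (ii) if `(Φ, C, m) ∈ F`, `r` and `s` are matrices, `s` not scalar, such that
`φ r = s φ` for more than `p ^ (-δ) |Φ|` elements `φ` of `Φ`, then
`energy s A_q ≤ p ^ (-1/2 - δ) (|Φ| |C| / m) ^ 4`; all complex weights `α`, `β` and every nonprincipal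
character `χ` modulo `p` the sum of `α a * β b * χ (a - b)` over `a ∈ A`, `b ∈ B` is at most
`p ^ (-τ) (|B| ∑_F |Φ| |C| / m) ^ (1/2) (∑ |α|²) ^ (1/2) (∑ |β|²) ^ (1/2)` in absolute value. -/
theorem result (δ : ℝ) (hδ : 0 < δ) : ∃ τ : ℝ, 0 < τ ∧ ∃ P : ℕ, ∀ (p : ℕ) [Fact p.Prime], P ≤ p →
    ∀ (A B : Finset (ZMod p))
      (F : Finset (Finset (Matrix (Fin 2) (Fin 2) (ZMod p)) × Finset (ZMod p) × ℕ)),
      (p : ℝ) ^ (1 / 2 - τ) ≤ (#B : ℝ) →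
      (∀ (Φ : Finset (Matrix (Fin 2) (Fin 2) (ZMod p))) (C : Finset (ZMod p)) (m : ℕ),
        (Φ, C, m) ∈ F →
        (∀ φ ∈ Φ, φ.det ≠ 0) ∧
        (∀ φ ∈ Φ, ∀ ψ ∈ Φ, ∀ c : ZMod p, ψ = c • φ → ψ = φ) ∧
        (p : ℝ) ^ δ ≤ (#Φ : ℝ) ∧ (p : ℝ) ^ δ ≤ (#C : ℝ) ∧ 1 ≤ m ∧
        ∀ r s : Matrix (Fin 2) (Fin 2) (ZMod p),
          (∀ c : ZMod p, s ≠ c • (1 : Matrix (Fin 2) (Fin 2) (ZMod p))) →
          (p : ℝ) ^ (-δ) * #Φ < #(Φ.filter fun φ => φ * r = s * φ) →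
          (p : ℝ) ^ (1 / 2 + δ) * energy s (A.filter fun a => m ≤ reps Φ C a) ≤
            ((#Φ : ℝ) * #C / m) ^ 4) →
      (∀ a ∈ A, ∃ (Φ : Finset (Matrix (Fin 2) (Fin 2) (ZMod p))) (C : Finset (ZMod p)) (m : ℕ),
        (Φ, C, m) ∈ F ∧ m ≤ reps Φ C a) →
      ∀ (α β : ZMod p → ℂ) (χ : DirichletCharacter ℂ p), χ ≠ 1 →
        ‖∑ a ∈ A, ∑ b ∈ B, α a * β b * χ (a - b)‖ ≤
          (p : ℝ) ^ (-τ) * Real.sqrt ((∑ q ∈ F, (#q.1 : ℝ) * #q.2.1 / q.2.2) * #B) *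
            (Real.sqrt (∑ a ∈ A, ‖α a‖ ^ 2) * Real.sqrt (∑ b ∈ B, ‖β b‖ ^ 2)) := by
  obtain ⟨τ, hτ, P, hP⟩ := MPcb27.PH.theoremPH δ hδ
  refine ⟨τ, hτ, P, ?_⟩
  intro p _ hPp A B F hB hF hA α β χ hχ
  refine hP p hPp A B F hB ?_ ?_ χ hχ α β
  · rintro ⟨Φ, C, m⟩ hq
    obtain ⟨h1, h2, h3, h4, h5, h6⟩ := hF Φ C m hq
    refine ⟨h1, h2, h3, h4, h5, ?_⟩
    intro r₀ r₁ hr hrich
    have h7 := h6 r₀ r₁ hr hrich
    rw [energy_eq] at h7
    simp only [reps_eq] at h7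
    exact h7
  · intro a ha
    obtain ⟨Φ, C, m, h1, h2⟩ := hA a ha
    rw [reps_eq] at h2
    exact ⟨(Φ, C, m), h1, h2⟩

open scoped Pointwise

/-- Q1's inequality below the square root for subsets of SUMSETS: for every `δ > 0` there are `τ > 0` and
`P` such that for every prime `p ≥ P`, every set `A` in `ZMod p` with at least `p ^ (1/2 - τ)` elements
and additive energy at most `p ^ (-δ) |A|³`, contained in a sumset `C + D` of sets of at least `p ^ δ`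
elements with `|C| |D| ≤ p ^ τ |A|`, and every nonprincipal `χ` modulo `p` the sum of `χ (a - b)` over
`a, b ∈ A` is less than `|A| ^ (2 - τ)` in absolute value. -/
theorem sumset (δ : ℝ) (hδ : 0 < δ) : ∃ τ : ℝ, 0 < τ ∧ ∃ P : ℕ, ∀ (p : ℕ) [Fact p.Prime], P ≤ p →
    ∀ A C D : Finset (ZMod p), (p : ℝ) ^ (1 / 2 - τ) ≤ (#A : ℝ) → (p : ℝ) ^ δ ≤ (#C : ℝ) →
      (p : ℝ) ^ δ ≤ (#D : ℝ) → A ⊆ C + D → (#C : ℝ) * #D ≤ (p : ℝ) ^ τ * #A →
      (p : ℝ) ^ δ * A.addEnergy A ≤ (#A : ℝ) ^ 3 →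
      ∀ χ : DirichletCharacter ℂ p, χ ≠ 1 →
        ‖∑ a ∈ A, ∑ b ∈ A, χ (a - b)‖ < (#A : ℝ) ^ (2 - τ) :=
  MPcb27.CO.specME1 MPcb27.PH.theoremPH δ hδ

/-- The same for subsets of PRODUCT SETS `C * D`, with the multiplicative energy. -/
theorem product (δ : ℝ) (hδ : 0 < δ) : ∃ τ : ℝ, 0 < τ ∧ ∃ P : ℕ, ∀ (p : ℕ) [Fact p.Prime], P ≤ p →
    ∀ A C D : Finset (ZMod p), (p : ℝ) ^ (1 / 2 - τ) ≤ (#A : ℝ) → (p : ℝ) ^ δ ≤ (#C : ℝ) →
      (p : ℝ) ^ δ ≤ (#D : ℝ) → A ⊆ C * D → (#C : ℝ) * #D ≤ (p : ℝ) ^ τ * #A →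
      (p : ℝ) ^ δ * A.mulEnergy A ≤ (#A : ℝ) ^ 3 →
      ∀ χ : DirichletCharacter ℂ p, χ ≠ 1 →
        ‖∑ a ∈ A, ∑ b ∈ A, χ (a - b)‖ < (#A : ℝ) ^ (2 - τ) :=
  MPcb27.CO.specME2 MPcb27.PH.theoremPH δ hδ

/-- The same, without any condition on the energy, for every set `A` covered by sets `C * D + E`,
`(C, D, E) ∈ F`, and `1 / (C + D) + E`, `(C, D, E) ∈ G`, where `C`, `D`, `E` are any sets of at least
`p ^ δ` elements and the sum of all `|C| |D| |E|` is at most `p ^ τ |A|`. -/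
theorem affine (δ : ℝ) (hδ : 0 < δ) : ∃ τ : ℝ, 0 < τ ∧ ∃ P : ℕ, ∀ (p : ℕ) [Fact p.Prime], P ≤ p →
    ∀ (A : Finset (ZMod p))
      (F G : Finset (Finset (ZMod p) × Finset (ZMod p) × Finset (ZMod p))),
      (p : ℝ) ^ (1 / 2 - τ) ≤ (#A : ℝ) →
      (∀ q ∈ F ∪ G, (p : ℝ) ^ δ ≤ (#q.1 : ℝ) ∧ (p : ℝ) ^ δ ≤ (#q.2.1 : ℝ) ∧
        (p : ℝ) ^ δ ≤ (#q.2.2 : ℝ)) →
      A ⊆ (F.biUnion fun q => q.1 * q.2.1 + q.2.2) ∪ (G.biUnion fun q => (q.1 + q.2.1)⁻¹ + q.2.2) →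
      ∑ q ∈ F, (#q.1 : ℝ) * #q.2.1 * #q.2.2 + ∑ q ∈ G, (#q.1 : ℝ) * #q.2.1 * #q.2.2 ≤
        (p : ℝ) ^ τ * #A →
      ∀ χ : DirichletCharacter ℂ p, χ ≠ 1 →
        ‖∑ a ∈ A, ∑ b ∈ A, χ (a - b)‖ < (#A : ℝ) ^ (2 - τ) :=
  MPcb27.CO.specME3 MPcb27.PH.theoremPH δ hδ

end Pool.Agent.Results.MP_cb27ba_nt.MoebiusEnergy
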